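import Pool.Agent.PCF.Loc39

/-!
# Proper conflict-free list colourings of bridged graphs

The breadth first search order of a connected weakly modular graph without induced cycles of length four
and five satisfies the hypotheses of the ordering theorem, with the father of a vertex as its witness.
-/

set_option autoImplicit false

namespace Pool.Agent.Helper71.PC71

variable {V : Type}

/-- what is used about the breadth first search order: `lev` is the level, `f` the father -/
structure BFS (G : SimpleGraph V) (lev : V → ℕ) (pos : V → ℕ) (f : V → V) : Prop where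
  inj : Function.Injective pos
  lev_lt : ∀ x y, lev x < lev y → pos x < pos y
  adj : ∀ x, lev x ≠ 0 → G.Adj x (f x)
  lev_f : ∀ x, lev x ≠ 0 → lev (f x) + 1 = lev x
  min : ∀ x y, lev x ≠ 0 → G.Adj x y → lev y + 1 = lev x → pos (f x) ≤ pos y
  mono : ∀ x y, lev x = lev y → lev x ≠ 0 → pos x < pos y → pos (f x) ≤ pos (f y)

section

variable {G : SimpleGraph V} {lev pos : V → ℕ} {f : V → V}

/-- the hypotheses on the graph, with respect to the level function -/
structure Wm (G : SimpleGraph V) (lev : V → ℕ) : Prop where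
  diff : ∀ x y, G.Adj x y → lev y ≤ lev x + 1
  root : ∀ x y, lev x = 0 → lev y = 0 → x = y
  tc : ∀ v w, G.Adj v w → lev v = lev w → lev v ≠ 0 → ∃ x, G.Adj x v ∧ G.Adj x w ∧ lev x + 1 = lev v
  qc : ∀ v w z, G.Adj v z → G.Adj w z → v ≠ w → ¬ G.Adj v w → lev v = lev w → lev z = lev v + 1 →
    ∃ x, G.Adj x v ∧ G.Adj x w ∧ lev x + 1 = lev v
  c4 : ∀ a b c d, G.Adj a b → G.Adj b c → G.Adj c d → G.Adj d a → a ≠ c → b ≠ d →
    (G.Adj a c ∨ G.Adj b d)
  c5 : ∀ a b c d e, G.Adj a b → G.Adj b c → G.Adj c d → G.Adj d e → G.Adj e a →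
    a ≠ c → a ≠ d → b ≠ d → b ≠ e → c ≠ e →
    (G.Adj a c ∨ G.Adj a d ∨ G.Adj b d ∨ G.Adj b e ∨ G.Adj c e)

theorem far {x y : V} (h : Wm G lev) (h1 : lev x + 2 ≤ lev y) : ¬ G.Adj x y := fun e => by
  have := h.diff x y e
  omega

theorem ne_of_lev {x y : V} (h1 : lev x ≠ lev y) : x ≠ y := fun e => h1 (e ▸ rfl)

/-- the lower neighbours form a clique -/
theorem lower_clique (h : Wm G lev) {x v w : V} (hv : G.Adj x v) (hw : G.Adj x w)
    (hlv : lev v + 1 = lev x) (hlw : lev w + 1 = lev x) (hne : v ≠ w) : G.Adj v w := by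
  by_contra hadj
  obtain ⟨p, hpv, hpw, hp⟩ := h.qc v w x hv.symm hw.symm hne hadj (by omega) (by omega)
  have hxp : x ≠ p := ne_of_lev (lev := lev) (by omega)
  rcases h.c4 x v p w hv hpv.symm hpw hw.symm hxp hne with h1 | h1
  · exact far h (by omega) h1.symm
  · exact hadj h1

/-- the father dominates the earlier neighbours on the same level -/
theorem father_dom (h : Wm G lev) (B : BFS G lev pos f) :
    ∀ (k : ℕ) (x y : V), lev x = k → lev y = k → G.Adj x y → pos y < pos x → G.Adj y (f x) := by
  intro k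
  induction k with
  | zero =>
    intro x y hx hy hxy _
    exact absurd (h.root x y hx hy) hxy.ne
  | succ k ih =>
    intro x y hx hy hxy hpos
    by_contra hyf
    have hx0 : lev x ≠ 0 := by omega
    have hy0 : lev y ≠ 0 := by omega
    have hxf := B.adj x hx0
    have hyf' := B.adj y hy0
    have lx := B.lev_f x hx0
    have ly := B.lev_f y hy0
    obtain ⟨z, hzx, hzy, hz⟩ := h.tc x y hxy (by omega) hx0
    have hzne : z ≠ f x := fun e => hyf (e ▸ hzy.symm)
    have hzf : G.Adj z (f x) := lower_clique h hzx.symm hxf hz lx hzne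
    have hfz : pos (f x) < pos z :=
      lt_of_le_of_ne (B.min x z hx0 hzx.symm hz) (fun e => hzne (B.inj e.symm))
    have hffle : pos (f y) ≤ pos (f x) := B.mono y x (by omega) hy0 hpos
    have hffne : f y ≠ f x := fun e => hyf (e ▸ hyf')
    have hfflt : pos (f y) < pos (f x) := lt_of_le_of_ne hffle (fun e => hffne (B.inj e))
    have hxfy : ¬ G.Adj x (f y) := fun e => by
      have := B.min x (f y) hx0 e (by omega)
      omega
    have hzfyne : z ≠ f y := fun e => hxfy (e ▸ hzx.symm)
    have hzfy : G.Adj z (f y) := lower_clique h hzy.symm hyf' (by omega) ly hzfyne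
    have hff : ¬ G.Adj (f x) (f y) := by
      intro e
      rcases h.c4 x (f x) (f y) y hxf e hyf'.symm hxy.symm
        (ne_of_lev (lev := lev) (by omega)) (ne_of_lev (lev := lev) (by omega)) with h1 | h1
      · exact hxfy h1
      · exact hyf h1.symm
    have hz0 : lev z ≠ 0 := fun e => hzne (h.root z (f x) e (by omega))
    have i1 := ih z (f x) (by omega) (by omega) hzf hfz
    have i2 := ih z (f y) (by omega) (by omega) hzfy (hfflt.trans hfz)
    have lz := B.lev_f z hz0
    rcases h.c5 x (f x) (f z) (f y) y hxf i1 i2.symm hyf'.symm hxy.symm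
      (ne_of_lev (lev := lev) (by omega)) (ne_of_lev (lev := lev) (by omega)) hffne.symm
      (ne_of_lev (lev := lev) (by omega)) (ne_of_lev (lev := lev) (by omega)) with h1 | h1 | h1 | h1 | h1
    · exact far h (by omega) h1.symm
    · exact hxfy h1
    · exact hff h1
    · exact hyf h1.symm
    · exact far h (by omega) h1

end

/-- existence of the breadth first search order -/
theorem exists_bfs [Fintype V] (G : SimpleGraph V) (lev : V → ℕ)
    (hlow : ∀ x, lev x ≠ 0 → ∃ y, G.Adj x y ∧ lev y + 1 = lev x) (N : ℕ) (e : V → ℕ)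
    (he : Function.Injective e) (heN : ∀ x, e x < N) :
    ∃ (pos : V → ℕ) (f : V → V), BFS G lev pos f := by
  classical
  -- the order on the level `k`
  obtain ⟨P, hP⟩ : ∃ P : ℕ → V → ℕ, (∀ x, P 0 x = e x) ∧
      ∀ k x, P (k + 1) x = (sInf {n | ∃ y, G.Adj x y ∧ lev y + 1 = lev x ∧ n = P k y}) * N + e x :=
    ⟨fun k => Nat.rec e (fun _ Q x => (sInf {n | ∃ y, G.Adj x y ∧ lev y + 1 = lev x ∧ n = Q y}) * N + e x) k,
      fun _ => rfl, fun _ _ => rfl⟩
  obtain ⟨hP0, hPs⟩ := hP
  -- the father
  have hf : ∀ x, ∃ y, lev x ≠ 0 → G.Adj x y ∧ lev y + 1 = lev x ∧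
      P (lev y) y = sInf {n | ∃ z, G.Adj x z ∧ lev z + 1 = lev x ∧ n = P (lev x - 1) z} := by
    intro x
    by_cases hx : lev x = 0
    · exact ⟨x, fun h => absurd hx h⟩
    · obtain ⟨y0, hy0, hy1⟩ := hlow x hx
      have hne : {n | ∃ z, G.Adj x z ∧ lev z + 1 = lev x ∧ n = P (lev x - 1) z}.Nonempty :=
        ⟨_, y0, hy0, hy1, rfl⟩
      obtain ⟨y, hy, hy2, hy3⟩ := Nat.sInf_mem hne
      refine ⟨y, fun _ => ⟨hy, hy2, ?_⟩⟩
      rw [hy3]
      have : lev y = lev x - 1 := by omega
      rw [this]
  choose f hf using hf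
  have hPx : ∀ x, lev x ≠ 0 → P (lev x) x = P (lev (f x)) (f x) * N + e x := by
    intro x hx
    obtain ⟨h1, h2, h3⟩ := hf x hx
    obtain ⟨k, hk⟩ := Nat.exists_eq_succ_of_ne_zero hx
    rw [hk, Nat.succ_eq_add_one, hPs k x, h3, hk]
    rfl
  obtain ⟨W, hW⟩ : ∃ W, ∀ x, P (lev x) x < W := by
    refine ⟨Finset.univ.sup (fun x => P (lev x) x) + 1, fun x => ?_⟩
    exact Nat.lt_succ_of_le (Finset.le_sup (f := fun x => P (lev x) x) (Finset.mem_univ x))
  have hlevlt : ∀ x y, lev x < lev y → lev x * W + P (lev x) x < lev y * W + P (lev y) y := by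
    intro x y hxy
    have h1 := hW x
    have h2 : (lev x + 1) * W ≤ lev y * W := Nat.mul_le_mul_right _ hxy
    nlinarith
  refine ⟨fun x => lev x * W + P (lev x) x, f, ?_, hlevlt, fun x hx => (hf x hx).1,
    fun x hx => (hf x hx).2.1, ?_, ?_⟩
  · intro x y hxy
    have hxy' : lev x * W + P (lev x) x = lev y * W + P (lev y) y := hxy
    rcases lt_trichotomy (lev x) (lev y) with h | h | h
    · have := hlevlt x y h; omega
    · rw [h] at hxy'
      have h1 : P (lev y) x = P (lev y) y := by omega
      by_cases h0 : lev y = 0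
      · rw [h0, hP0, hP0] at h1
        exact he h1
      · have h2 := hPx y h0
        have h3 := hPx x (by omega)
        rw [h] at h3
        rw [h3, h2] at h1
        have h4 := heN x
        have h5 := heN y
        apply he
        have h6 : e x = (P (lev (f x)) (f x) * N + e x) % N := by
          rw [Nat.mul_add_mod', Nat.mod_eq_of_lt h4]
        have h7 : e y = (P (lev (f y)) (f y) * N + e y) % N := by
          rw [Nat.mul_add_mod', Nat.mod_eq_of_lt h5]
        rw [h6, h7, h1]
    · have := hlevlt y x h; omega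
  · intro x y hx hxy hy
    obtain ⟨h1, h2, h3⟩ := hf x hx
    have h4 : lev (f x) = lev y := by omega
    have h5 : P (lev (f x)) (f x) ≤ P (lev y) y := by
      rw [h3]
      refine Nat.sInf_le ⟨y, hxy, hy, ?_⟩
      have : lev y = lev x - 1 := by omega
      rw [this]
    show lev (f x) * W + P (lev (f x)) (f x) ≤ lev y * W + P (lev y) y
    have h6 : lev (f x) * W = lev y * W := by rw [h4]
    omega
  · intro x y hl hx hxy
    have hxy' : lev x * W + P (lev x) x < lev y * W + P (lev y) y := hxy
    have hl2 : lev x * W = lev y * W := by rw [hl]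
    have h1 : P (lev x) x < P (lev y) y := by omega
    rw [hPx x hx, hPx y (by omega)] at h1
    have h2 : lev (f x) = lev (f y) := by
      have := (hf x hx).2.1
      have := (hf y (by omega)).2.1
      omega
    have h3 : P (lev (f x)) (f x) ≤ P (lev (f y)) (f y) := by
      by_contra hcon
      push Not at hcon
      have h4 := heN x
      have h5 := heN y
      have h6 : (P (lev (f y)) (f y) + 1) * N ≤ P (lev (f x)) (f x) * N := Nat.mul_le_mul_right _ hcon
      nlinarith
    show lev (f x) * W + P (lev (f x)) (f x) ≤ lev (f y) * W + P (lev (f y)) (f y)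
    have h7 : lev (f x) * W = lev (f y) * W := by rw [h2]
    omega

/-- the ordering theorem applies to the breadth first search order -/
theorem list_of_bfs {α : Type} [Fintype V] [DecidableEq V] [DecidableEq α] (G : SimpleGraph V)
    [DecidableRel G.Adj] (L : V → Finset α) (hL1 : ∀ v, (L v).Nonempty)
    (hL2 : ∀ v u, G.Adj v u → G.degree u < (L v).card) {lev pos : V → ℕ} {f : V → V}
    (h : Wm G lev) (B : BFS G lev pos f) :
    ∃ c : V → α, (∀ v, c v ∈ L v) ∧ (∀ u v, G.Adj u v → c u ≠ c v) ∧
      ∀ v, 0 < G.degree v → ∃ k, (Finset.filter (fun w => c w = k) (G.neighborFinset v)).card = 1 := by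
  classical
  -- the first neighbour
  have hfirst : ∀ w, ∃ y, (∃ z, G.Adj w z) → G.Adj w y ∧ ∀ z, G.Adj w z → pos y ≤ pos z := by
    intro w
    by_cases hw : ∃ z, G.Adj w z
    · obtain ⟨z, hz⟩ := hw
      obtain ⟨y, hy, hmin⟩ := (G.neighborFinset w).exists_min_image pos
        ⟨z, (SimpleGraph.mem_neighborFinset ..).2 hz⟩
      exact ⟨y, fun _ => ⟨(SimpleGraph.mem_neighborFinset ..).1 hy, fun z hz =>
        hmin z ((SimpleGraph.mem_neighborFinset ..).2 hz)⟩⟩
    · exact ⟨w, fun hz => absurd hz hw⟩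
  choose g hg using hfirst
  set m : V → V := fun w => if lev w = 0 then g w else f w with hm
  have hm0 : ∀ w, lev w = 0 → m w = g w := fun w hw => if_pos hw
  have hm1 : ∀ w, lev w ≠ 0 → m w = f w := fun w hw => if_neg hw
  have hposf : ∀ w, lev w ≠ 0 → pos (f w) < pos w := fun w hw =>
    B.lev_lt _ _ (by have := B.lev_f w hw; omega)
  -- earlier neighbours are in the closed neighbourhood of the father
  have hdom : ∀ x w, lev x ≠ 0 → G.Adj x w → pos w < pos x → (w = f x ∨ G.Adj (f x) w) := by
    intro x w hx hxw hpos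
    have hle : lev w ≤ lev x := by
      by_contra hcon
      push Not at hcon
      have := B.lev_lt x w hcon
      omega
    rcases hle.lt_or_eq with hlt | heq
    · by_cases hwf : w = f x
      · exact Or.inl hwf
      · have := h.diff w x hxw.symm
        exact Or.inr (lower_clique h (B.adj x hx) hxw (B.lev_f x hx) (by omega) (fun e => hwf e.symm))
    · exact Or.inr (father_dom h B (lev x) x w rfl heq hxw hpos).symm
  have hroot : ∀ x, lev x ≠ 0 → ∀ w, G.Adj x w → pos w < pos x → lev w ≠ 0 →
      (f w = f x ∨ G.Adj (f x) (f w)) := by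
    intro x hx w hxw hpos hw
    have hle : lev w ≤ lev x := by
      by_contra hcon
      push Not at hcon
      have := B.lev_lt x w hcon
      omega
    have lfx := B.lev_f x hx
    have lfw := B.lev_f w hw
    rcases hle.lt_or_eq with hlt | heq
    · have hd := h.diff w x hxw.symm
      by_cases hwf : w = f x
      · right
        rw [← hwf]
        exact B.adj w hw
      · have h1 : G.Adj w (f x) := lower_clique h hxw (B.adj x hx) (by omega) lfx hwf
        have h2 : pos (f x) < pos w := lt_of_le_of_ne (B.min x w hx hxw (by omega))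
          (fun e => hwf (B.inj e.symm))
        exact Or.inr (father_dom h B (lev w) w (f x) rfl (by omega) h1 h2)
    · by_cases hff : f w = f x
      · exact Or.inl hff
      · have h1 := father_dom h B (lev x) x w rfl heq hxw hpos
        exact Or.inr (lower_clique h h1 (B.adj w hw) (by omega) lfw (fun e => hff e.symm))
  refine PCF39.ordering39 G L hL1 hL2 pos B.inj m ?_ ?_
  · rintro w ⟨y0, hy0⟩
    by_cases hw : lev w = 0
    · rw [hm0 w hw]
      obtain ⟨h1, h2⟩ := hg w ⟨y0, hy0⟩
      refine ⟨h1, fun y hy hne => Or.inr ⟨?_, lt_of_le_of_ne (h2 y hy) (fun e => hne (B.inj e.symm))⟩⟩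
      refine B.lev_lt w y ?_
      rw [hw]
      exact Nat.pos_of_ne_zero fun e => hy.ne (h.root w y hw e)
    · rw [hm1 w hw]
      refine ⟨B.adj w hw, fun y hy hne => ?_⟩
      rcases lt_trichotomy (pos y) (pos w) with h1 | h1 | h1
      · exact Or.inl (((hdom w y hw hy h1).resolve_left hne).symm)
      · exact absurd (B.inj h1).symm hy.ne
      · exact Or.inr ⟨h1, (hposf w hw).trans h1⟩
  · rintro x ⟨w0, hw0, hw1⟩
    have hx : lev x ≠ 0 := by
      intro hx
      have hw2 : lev w0 ≠ 0 := fun e => hw0.ne (h.root x w0 hx e)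
      have := B.lev_lt x w0 (by omega)
      omega
    refine ⟨f x, B.adj x hx, fun w hxw hpos => ⟨hdom x w hx hxw hpos, fun _ => ?_⟩⟩
    by_cases hw : lev w = 0
    · -- w is the root, the father of x
      have hd := h.diff w x hxw.symm
      have hwf : f x = w := h.root _ _ (by have := B.lev_f x hx; omega) hw
      rw [hm0 w hw, hwf]
      exact Or.inr (hg w ⟨x, hxw.symm⟩).1
    · rw [hm1 w hw]
      exact hroot x hx w hxw hpos hw

/-- **Bridged graphs**: connected graphs in which the triangle condition and the quadrangle condition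
hold with respect to some vertex `r`, without induced cycles of length four and five -/
theorem bridged71 {V α : Type} [Fintype V] [DecidableEq V] [DecidableEq α] (G : SimpleGraph V)
    [DecidableRel G.Adj] (L : V → Finset α) (hL1 : ∀ v, (L v).Nonempty)
    (hL2 : ∀ v u, G.Adj v u → G.degree u < (L v).card) (hG : G.Connected) (r : V)
    (htc : ∀ v w, G.Adj v w → G.dist r v = G.dist r w →
      ∃ x, G.Adj x v ∧ G.Adj x w ∧ G.dist r x + 1 = G.dist r v)
    (hqc : ∀ v w z, G.Adj v z → G.Adj w z → v ≠ w → ¬ G.Adj v w → G.dist r v = G.dist r w →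
      G.dist r z = G.dist r v + 1 → ∃ x, G.Adj x v ∧ G.Adj x w ∧ G.dist r x + 1 = G.dist r v)
    (hc4 : ∀ a b c d, G.Adj a b → G.Adj b c → G.Adj c d → G.Adj d a → a ≠ c → b ≠ d →
      (G.Adj a c ∨ G.Adj b d))
    (hc5 : ∀ a b c d e, G.Adj a b → G.Adj b c → G.Adj c d → G.Adj d e → G.Adj e a →
      a ≠ c → a ≠ d → b ≠ d → b ≠ e → c ≠ e →
      (G.Adj a c ∨ G.Adj a d ∨ G.Adj b d ∨ G.Adj b e ∨ G.Adj c e)) :
    ∃ c : V → α, (∀ v, c v ∈ L v) ∧ (∀ u v, G.Adj u v → c u ≠ c v) ∧
      ∀ v, 0 < G.degree v → ∃ k, (Finset.filter (fun w => c w = k) (G.neighborFinset v)).card = 1 := by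
  have hd1 : ∀ x y, G.Adj x y → G.dist r y ≤ G.dist r x + 1 := by
    intro x y hxy
    have h1 := hG.dist_triangle (u := r) (v := x) (w := y)
    have h2 : G.dist x y = 1 := SimpleGraph.dist_eq_one_iff_adj.2 hxy
    omega
  have hr : ∀ x, G.dist r x = 0 → x = r := fun x hx => ((hG.dist_eq_zero_iff).1 hx).symm
  have h : Wm G (G.dist r) := by
    refine ⟨hd1, fun x y hx hy => (hr x hx).trans (hr y hy).symm, fun v w hvw hl _ => htc v w hvw hl,
      hqc, hc4, hc5⟩
  have hlow : ∀ x, G.dist r x ≠ 0 → ∃ y, G.Adj x y ∧ G.dist r y + 1 = G.dist r x := by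
    intro x hx
    obtain ⟨p, hp⟩ := hG.exists_walk_length_eq_dist x r
    cases p with
    | nil => rw [SimpleGraph.dist_self] at hx; exact absurd rfl hx
    | cons hxy q =>
      rename_i y
      refine ⟨y, hxy, ?_⟩
      rw [SimpleGraph.Walk.length_cons] at hp
      have h1 := G.dist_le q
      have h2 := hd1 y x hxy.symm
      rw [G.dist_comm (u := y)] at h1
      rw [G.dist_comm (u := x)] at hp
      omega
  obtain ⟨pos, f, B⟩ := exists_bfs G (G.dist r) hlow (Fintype.card V)
    (fun x => (Fintype.equivFin V x : ℕ)) (fun x y hxy => (Fintype.equivFin V).injective (Fin.ext hxy))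
    (fun x => (Fintype.equivFin V x).2)
  exact list_of_bfs G L hL1 hL2 h B

end Pool.Agent.Helper71.PC71
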