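import Mathlib

/-!
# Proper conflict-free list colourings of dually chordal graphs

Extension lemma: if `v` has a maximum neighbour `u ≠ v` in the induced subgraph `H`, every proper
conflict-free colouring of `H - v` extends to `v`, for lists of size at least `Δ + 1`.
-/

set_option autoImplicit false

namespace Pool.Agent.Helper71.PC71

variable {V α : Type*}

/-- `c` is a proper conflict-free colouring: it is proper and every vertex with at least one neighbour
has a neighbour `u` whose colour occurs exactly once among its neighbours -/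
def PCF (G : SimpleGraph V) (c : V → α) : Prop :=
  (∀ u w, G.Adj u w → c u ≠ c w) ∧
    ∀ v, (∃ w, G.Adj v w) → ∃ u, G.Adj v u ∧ ∀ w, G.Adj v w → c w = c u → w = u

/-- the same on the subgraph induced by `S` -/
def POn (G : SimpleGraph V) (S : Finset V) (c : V → α) : Prop :=
  (∀ u ∈ S, ∀ w ∈ S, G.Adj u w → c u ≠ c w) ∧
    ∀ v ∈ S, (∃ w ∈ S, G.Adj v w) → ∃ u ∈ S, G.Adj v u ∧ ∀ w ∈ S, G.Adj v w → c w = c u → w = u

/-- `pos` is a maximum neighbourhood ordering: every `v` has a maximum neighbour `u` (`u = v` is allowed) in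
the subgraph induced by the `w` with `pos v ≤ pos w`: the closed neighbourhood of every `w` in the closed
neighbourhood of `v` is contained in that of `u` -/
def MaxNbrOrder (G : SimpleGraph V) (pos : V → ℕ) : Prop :=
  Function.Injective pos ∧ ∀ v, ∃ u, pos v ≤ pos u ∧ (u = v ∨ G.Adj v u) ∧
    ∀ w, pos v ≤ pos w → (w = v ∨ G.Adj v w) → ∀ z, pos v ≤ pos z → (z = w ∨ G.Adj w z) →
      (z = u ∨ G.Adj u z)

section

variable [DecidableEq V] {G : SimpleGraph V} {S : Finset V} {c : V → α}

/-- an isolated vertex -/
theorem pon_isolated {v : V} (hv : v ∉ S) (hiso : ∀ w ∈ S, ¬ G.Adj v w) (h : POn G S c) (x : α) :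
    POn G (insert v S) (Function.update c v x) := by
  have hc : ∀ w ∈ S, Function.update c v x w = c w := fun w hw => by
    have hwv : w ≠ v := fun e => hv (e ▸ hw)
    exact Function.update_of_ne hwv _ _
  refine ⟨?_, ?_⟩
  · intro u hu w hw huw
    rcases Finset.mem_insert.1 hu with hu1 | hu1
    · rcases Finset.mem_insert.1 hw with hw1 | hw1
      · subst hu1; subst hw1; exact absurd huw (G.irrefl)
      · subst hu1; exact absurd huw (hiso w hw1)
    · rcases Finset.mem_insert.1 hw with hw1 | hw1
      · subst hw1; exact absurd huw.symm (hiso u hu1)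
      · rw [hc u hu1, hc w hw1]; exact h.1 u hu1 w hw1 huw
  · intro y hy hex
    rcases Finset.mem_insert.1 hy with hy1 | hy1
    · subst hy1
      obtain ⟨w, hw, hyw⟩ := hex
      rcases Finset.mem_insert.1 hw with hw1 | hw1
      · subst hw1; exact absurd hyw (G.irrefl)
      · exact absurd hyw (hiso w hw1)
    · obtain ⟨w, hw, hyw⟩ := hex
      have hw' : w ∈ S := by
        rcases Finset.mem_insert.1 hw with hw1 | hw1
        · subst hw1; exact absurd hyw.symm (hiso y hy1)
        · exact hw1
      obtain ⟨u, hu, hyu, huniq⟩ := h.2 y hy1 ⟨w, hw', hyw⟩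
      refine ⟨u, Finset.mem_insert_of_mem hu, hyu, ?_⟩
      intro z hz hyz hcz
      rcases Finset.mem_insert.1 hz with hz1 | hz1
      · subst hz1; exact absurd hyz.symm (hiso y hy1)
      · rw [hc z hz1, hc u hu] at hcz
        exact huniq z hz1 hyz hcz

/-- the extension lemma -/
theorem pon_extend [Fintype V] [DecidableRel G.Adj] [DecidableEq α] {v u : V} (hv : v ∉ S) (hu : u ∈ S)
    (hvu : G.Adj v u)
    (hmax : ∀ w ∈ insert v S, (w = v ∨ G.Adj v w) → ∀ z ∈ insert v S, (z = w ∨ G.Adj w z) →
      (z = u ∨ G.Adj u z))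
    (L : Finset α) (hL : G.degree u < L.card) (h : POn G S c) :
    ∃ x ∈ L, POn G (insert v S) (Function.update c v x) := by
  have hc : ∀ (x : α), ∀ w ∈ S, Function.update c v x w = c w := fun x w hw => by
    have hwv : w ≠ v := fun e => hv (e ▸ hw)
    exact Function.update_of_ne hwv _ _
  have hcv : ∀ x : α, Function.update c v x v = x := fun x => Function.update_self _ _ _
  set T : Finset V := S.filter (fun z => z = u ∨ G.Adj u z) with hT
  have hT1 : T ⊆ insert u ((G.neighborFinset u).erase v) := by
    intro z hz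
    rw [hT, Finset.mem_filter] at hz
    rcases hz.2 with rfl | hz2
    · exact Finset.mem_insert_self _ _
    · refine Finset.mem_insert_of_mem (Finset.mem_erase.2 ⟨fun e => hv (e ▸ hz.1), ?_⟩)
      rw [SimpleGraph.mem_neighborFinset]
      exact hz2
  have hT2 : T.card ≤ G.degree u := by
    have h1 := Finset.card_le_card hT1
    have h2 := Finset.card_insert_le u ((G.neighborFinset u).erase v)
    have h3 : ((G.neighborFinset u).erase v).card = (G.neighborFinset u).card - 1 :=
      Finset.card_erase_of_mem ((SimpleGraph.mem_neighborFinset _ _ _).2 hvu.symm)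
    have h4 : 0 < (G.neighborFinset u).card :=
      Finset.card_pos.2 ⟨v, (SimpleGraph.mem_neighborFinset _ _ _).2 hvu.symm⟩
    rw [← G.card_neighborFinset_eq_degree u]
    omega
  obtain ⟨x, hxL, hxT⟩ : ∃ x ∈ L, x ∉ T.image c := by
    by_contra hcon
    push Not at hcon
    have h1 : L ⊆ T.image c := fun x hx => hcon x hx
    have h2 := Finset.card_le_card h1
    have h3 := Finset.card_image_le (s := T) (f := c)
    omega
  have hx : ∀ z ∈ S, (z = u ∨ G.Adj u z) → c z ≠ x := by
    intro z hz hz2 e
    exact hxT (Finset.mem_image.2 ⟨z, by rw [hT, Finset.mem_filter]; exact ⟨hz, hz2⟩, e⟩)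
  have hvS : v ∈ insert v S := Finset.mem_insert_self _ _
  -- neighbours of v
  have hN : ∀ y ∈ S, G.Adj v y → (y = u ∨ G.Adj u y) := fun y hy hvy =>
    hmax v hvS (Or.inl rfl) y (Finset.mem_insert_of_mem hy) (Or.inr hvy)
  refine ⟨x, hxL, ?_, ?_⟩
  · intro p hp q hq hpq
    rcases Finset.mem_insert.1 hp with hp1 | hp1
    · rcases Finset.mem_insert.1 hq with hq1 | hq1
      · subst hp1; subst hq1; exact absurd hpq (G.irrefl)
      · subst hp1
        rw [hcv, hc x q hq1]
        exact fun e => hx q hq1 (hN q hq1 hpq) e.symm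
    · rcases Finset.mem_insert.1 hq with hq1 | hq1
      · subst hq1
        rw [hcv, hc x p hp1]
        exact hx p hp1 (hN p hp1 hpq.symm)
      · rw [hc x p hp1, hc x q hq1]; exact h.1 p hp1 q hq1 hpq
  · intro y hy hex
    rcases Finset.mem_insert.1 hy with hy1 | hy1
    · subst hy1
      refine ⟨u, Finset.mem_insert_of_mem hu, hvu, ?_⟩
      intro w hw hyw hcw
      rcases Finset.mem_insert.1 hw with hw1 | hw1
      · subst hw1; exact absurd hyw (G.irrefl)
      · rw [hc x w hw1, hc x u hu] at hcw
        rcases hN w hw1 hyw with e | huw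
        · exact e
        · exact absurd hcw.symm (h.1 u hu w hw1 huw)
    · by_cases hvy : G.Adj v y
      · by_cases hy2 : ∃ w ∈ S, G.Adj y w
        · obtain ⟨m, hm, hym, huniq⟩ := h.2 y hy1 hy2
          refine ⟨m, Finset.mem_insert_of_mem hm, hym, ?_⟩
          intro w hw hyw hcw
          rcases Finset.mem_insert.1 hw with hw1 | hw1
          · subst hw1
            rw [hcv, hc x m hm] at hcw
            exact absurd hcw.symm (hx m hm (hmax y (Finset.mem_insert_of_mem hy1) (Or.inr hvy) m
              (Finset.mem_insert_of_mem hm) (Or.inr hym)))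
          · rw [hc x w hw1, hc x m hm] at hcw
            exact huniq w hw1 hyw hcw
        · refine ⟨v, hvS, hvy.symm, ?_⟩
          intro w hw hyw _
          rcases Finset.mem_insert.1 hw with e | hw1
          · exact e
          · exact absurd ⟨w, hw1, hyw⟩ hy2
      · obtain ⟨w, hw, hyw⟩ := hex
        have hw' : w ∈ S := by
          rcases Finset.mem_insert.1 hw with hw1 | hw1
          · subst hw1; exact absurd hyw.symm hvy
          · exact hw1
        obtain ⟨m, hm, hym, huniq⟩ := h.2 y hy1 ⟨w, hw', hyw⟩
        refine ⟨m, Finset.mem_insert_of_mem hm, hym, ?_⟩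
        intro z hz hyz hcz
        rcases Finset.mem_insert.1 hz with hz1 | hz1
        · subst hz1; exact absurd hyz.symm hvy
        · rw [hc x z hz1, hc x m hm] at hcz
          exact huniq z hz1 hyz hcz

/-- the weak ordering restricted to `S` -/
def Weak (G : SimpleGraph V) (pos : V → ℕ) (S : Finset V) : Prop :=
  ∀ v ∈ S, ∃ u ∈ S, pos v ≤ pos u ∧ (u = v ∨ G.Adj v u) ∧
    ∀ w ∈ S, pos v ≤ pos w → (w = v ∨ G.Adj v w) → ∀ z ∈ S, pos v ≤ pos z → (z = w ∨ G.Adj w z) →
      (z = u ∨ G.Adj u z)

/-- a dominated component -/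
theorem pon_dominated [Fintype V] [DecidableRel G.Adj] [DecidableEq α] (L : V → Finset α)
    (hL1 : ∀ v, (L v).Nonempty) (hL2 : ∀ v u, G.Adj v u → G.degree u < (L v).card) {v : V} {R C : Finset V} (hvR : v ∉ R) (hvC : v ∉ C)
    (hRC : Disjoint R C) (hCv : ∀ w ∈ C, G.Adj v w) (hR : ∀ w ∈ insert v C, ∀ z ∈ R, ¬ G.Adj w z)
    (hcL : ∀ w ∈ R, c w ∈ L w) (h : POn G R c) :
    ∃ c' : V → α, (∀ w ∈ insert v R ∪ C, c' w ∈ L w) ∧ POn G (insert v R ∪ C) c' := by
  induction C using Finset.induction_on with
  | empty =>
    obtain ⟨x, hx⟩ := hL1 v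
    refine ⟨Function.update c v x, ?_, ?_⟩
    · intro w hw
      rw [Finset.union_empty] at hw
      rcases Finset.mem_insert.1 hw with rfl | hw
      · rw [Function.update_self]; exact hx
      · have hwv : w ≠ v := fun e => hvR (e ▸ hw)
        rw [Function.update_of_ne hwv]; exact hcL w hw
    · rw [Finset.union_empty]
      exact pon_isolated hvR (fun w hw => hR v (Finset.mem_insert_self _ _) w hw) h x
  | insert a C ha ih =>
    have hva : v ≠ a := fun e => hvC (e ▸ Finset.mem_insert_self _ _)
    obtain ⟨c', hc'L, hc'⟩ := ih (fun e => hvC (Finset.mem_insert_of_mem e))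
      (hRC.mono_right (Finset.subset_insert _ _)) (fun w hw => hCv w (Finset.mem_insert_of_mem hw))
      (fun w hw z hz => hR w (by
        rcases Finset.mem_insert.1 hw with rfl | hw
        · exact Finset.mem_insert_self _ _
        · exact Finset.mem_insert_of_mem (Finset.mem_insert_of_mem hw)) z hz)
    have haS : a ∉ insert v R ∪ C := by
      intro e
      rcases Finset.mem_union.1 e with e | e
      · rcases Finset.mem_insert.1 e with e | e
        · exact hva e.symm
        · exact (Finset.disjoint_left.1 hRC e) (Finset.mem_insert_self _ _)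
      · exact ha e
    have hvS : v ∈ insert v R ∪ C := Finset.mem_union_left _ (Finset.mem_insert_self _ _)
    have hset : insert v R ∪ insert a C = insert a (insert v R ∪ C) := by
      rw [Finset.union_insert]
    have hcl : ∀ w ∈ insert a (insert v R ∪ C), (w = v ∨ G.Adj v w) → w ∈ insert v (insert a C) := by
      intro w hw hw2
      rcases Finset.mem_insert.1 hw with rfl | hw
      · exact Finset.mem_insert_of_mem (Finset.mem_insert_self _ _)
      · rcases Finset.mem_union.1 hw with hw | hw
        · rcases Finset.mem_insert.1 hw with rfl | hw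
          · exact Finset.mem_insert_self _ _
          · rcases hw2 with rfl | hw2
            · exact Finset.mem_insert_self _ _
            · exact absurd hw2 (hR v (Finset.mem_insert_self _ _) w hw)
        · exact Finset.mem_insert_of_mem (Finset.mem_insert_of_mem hw)
    have hdom : ∀ w ∈ insert v (insert a C), ∀ z ∈ insert a (insert v R ∪ C), (z = w ∨ G.Adj w z) →
        (z = v ∨ G.Adj v z) := by
      intro w hw z hz hzw
      have hz2 : z ∈ insert v (insert a C) := by
        rcases hzw with rfl | hzw
        · exact hw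
        · rcases Finset.mem_insert.1 hz with rfl | hz
          · exact Finset.mem_insert_of_mem (Finset.mem_insert_self _ _)
          · rcases Finset.mem_union.1 hz with hz | hz
            · rcases Finset.mem_insert.1 hz with rfl | hz
              · exact Finset.mem_insert_self _ _
              · exact absurd hzw (hR w hw z hz)
            · exact Finset.mem_insert_of_mem (Finset.mem_insert_of_mem hz)
      rcases Finset.mem_insert.1 hz2 with e | hz2
      · exact Or.inl e
      · exact Or.inr (hCv z hz2)
    have hav : G.Adj a v := (hCv a (Finset.mem_insert_self _ _)).symm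
    obtain ⟨x, hx, hx2⟩ := pon_extend (u := v) haS hvS hav (by
      intro w hw hw2 z hz hz2
      refine hdom w ?_ z hz hz2
      rcases hw2 with rfl | hw2
      · exact Finset.mem_insert_of_mem (Finset.mem_insert_self _ _)
      · rcases Finset.mem_insert.1 hw with rfl | hw
        · exact absurd hw2 (G.irrefl)
        · rcases Finset.mem_union.1 hw with hw | hw
          · rcases Finset.mem_insert.1 hw with rfl | hw
            · exact Finset.mem_insert_self _ _
            · exact absurd hw2 (hR a (Finset.mem_insert_of_mem (Finset.mem_insert_self _ _)) w hw)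
          · exact Finset.mem_insert_of_mem (Finset.mem_insert_of_mem hw)) (L a) (hL2 a v hav) hc'
    rw [hset]
    refine ⟨Function.update c' a x, ?_, hx2⟩
    intro w hw
    rcases Finset.mem_insert.1 hw with rfl | hw
    · rw [Function.update_self]; exact hx
    · have hwa : w ≠ a := fun e => haS (e ▸ hw)
      rw [Function.update_of_ne hwa]; exact hc'L w hw

/-- the induction -/
theorem exists_pon [Fintype V] [DecidableRel G.Adj] [DecidableEq α] {pos : V → ℕ}
    (hinj : Function.Injective pos) (L : V → Finset α) (hL1 : ∀ v, (L v).Nonempty)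
    (hL2 : ∀ v u, G.Adj v u → G.degree u < (L v).card) :
    ∀ (n : ℕ) (S : Finset V), S.card ≤ n → Weak G pos S →
      ∃ c : V → α, (∀ v ∈ S, c v ∈ L v) ∧ POn G S c := by
  intro n
  induction n with
  | zero =>
    intro S hS _
    have hS0 : S = ∅ := Finset.card_eq_zero.1 (by omega)
    subst hS0
    exact ⟨fun v => (hL1 v).choose, by simp, by simp [POn]⟩
  | succ n ih =>
    intro S hS hW
    rcases S.eq_empty_or_nonempty with rfl | hSne
    · exact ⟨fun v => (hL1 v).choose, by simp, by simp [POn]⟩
    obtain ⟨v, hvS, hvmin⟩ := S.exists_min_image pos hSne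
    obtain ⟨u, huS, hpu, hvu, hmax⟩ := hW v hvS
    by_cases huv : u = v
    · -- v dominates its component
      subst huv
      set C : Finset V := S.filter (fun z => G.Adj u z) with hC
      set R : Finset V := S.filter (fun z => ¬ (z = u ∨ G.Adj u z)) with hR
      have hcl : ∀ w ∈ insert u C, ∀ z ∈ R, ¬ G.Adj w z := by
        intro w hw z hz hwz
        rw [hR, Finset.mem_filter] at hz
        refine hz.2 ?_
        rcases Finset.mem_insert.1 hw with rfl | hw
        · exact Or.inr hwz
        · rw [hC, Finset.mem_filter] at hw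
          exact hmax w hw.1 (hvmin w hw.1) (Or.inr hw.2) z hz.1 (hvmin z hz.1) (Or.inr hwz)
      have hRW : Weak G pos R := by
        intro a ha
        have haS : a ∈ S := (Finset.mem_filter.1 ha).1
        obtain ⟨b, hbS, hab, hb2, hbmax⟩ := hW a haS
        have hbR : b ∈ R := by
          rcases hb2 with rfl | hb2
          · exact ha
          · rw [hR, Finset.mem_filter]
            refine ⟨hbS, fun hb3 => ?_⟩
            have hbC : b ∈ insert u C := by
              rcases hb3 with rfl | hb3
              · exact Finset.mem_insert_self _ _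
              · exact Finset.mem_insert_of_mem (by rw [hC, Finset.mem_filter]; exact ⟨hbS, hb3⟩)
            exact hcl b hbC a ha hb2.symm
        refine ⟨b, hbR, hab, hb2, ?_⟩
        intro w hw hw1 hw2 z hz hz1 hz2
        exact hbmax w (Finset.mem_filter.1 hw).1 hw1 hw2 z (Finset.mem_filter.1 hz).1 hz1 hz2
      have hRc : R.card ≤ n := by
        have h1 : R ⊂ S := by
          refine Finset.ssubset_iff_subset_ne.2 ⟨Finset.filter_subset _ _, fun e => ?_⟩
          have h2 : u ∈ R := e ▸ huS
          exact (Finset.mem_filter.1 h2).2 (Or.inl rfl)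
        have h3 := Finset.card_lt_card h1
        omega
      obtain ⟨c, hcL, hc⟩ := ih R hRc hRW
      have hunion : insert u R ∪ C = S := by
        ext z
        simp only [hR, hC, Finset.mem_union, Finset.mem_insert, Finset.mem_filter]
        constructor
        · rintro ((rfl | h) | h)
          · exact huS
          · exact h.1
          · exact h.1
        · intro hz
          by_cases h1 : z = u
          · exact Or.inl (Or.inl h1)
          · by_cases h2 : G.Adj u z
            · exact Or.inr ⟨hz, h2⟩
            · exact Or.inl (Or.inr ⟨hz, fun h => h.elim h1 h2⟩)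
      have := pon_dominated (c := c) (v := u) (R := R) (C := C) L hL1 hL2
        (fun h => (Finset.mem_filter.1 h).2 (Or.inl rfl))
        (fun h => G.irrefl (Finset.mem_filter.1 h).2)
        (Finset.disjoint_left.2 fun z hz hz2 => (Finset.mem_filter.1 hz).2
          (Or.inr (Finset.mem_filter.1 hz2).2))
        (fun w hw => (Finset.mem_filter.1 hw).2) hcl hcL hc
      rwa [hunion] at this
    · -- a maximum neighbour different from v
      have hvu' : G.Adj v u := hvu.resolve_left huv
      have hSe : insert v (S.erase v) = S := Finset.insert_erase hvS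
      have hW' : Weak G pos (S.erase v) := by
        intro a ha
        obtain ⟨hav, haS⟩ := Finset.mem_erase.1 ha
        obtain ⟨b, hbS, hab, hb2, hbmax⟩ := hW a haS
        have hlt : pos v < pos a := lt_of_le_of_ne (hvmin a haS) (fun e => hav (hinj e.symm))
        refine ⟨b, Finset.mem_erase.2 ⟨fun e => ?_, hbS⟩, hab, hb2, ?_⟩
        · subst e; omega
        intro w hw hw1 hw2 z hz hz1 hz2
        exact hbmax w (Finset.mem_erase.1 hw).2 hw1 hw2 z (Finset.mem_erase.1 hz).2 hz1 hz2
      obtain ⟨c, hcL, hc⟩ := ih (S.erase v) (by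
        have := Finset.card_erase_of_mem hvS
        have h0 := Finset.card_pos.2 hSne
        omega) hW'
      obtain ⟨x, hx, hx2⟩ := pon_extend (u := u) (Finset.notMem_erase v S)
        (Finset.mem_erase.2 ⟨huv, huS⟩) hvu' (by
          rw [hSe]
          intro w hw hw2 z hz hz2
          exact hmax w hw (hvmin w hw) hw2 z hz (hvmin z hz) hz2) (L v) (hL2 v u hvu') hc
      rw [hSe] at hx2
      refine ⟨Function.update c v x, ?_, hx2⟩
      intro w hw
      by_cases hwv : w = v
      · subst hwv; rw [Function.update_self]; exact hx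
      · rw [Function.update_of_ne hwv]
        exact hcL w (Finset.mem_erase.2 ⟨hwv, hw⟩)

end

/-- dually chordal graphs: local lists -/
theorem dual71 [Fintype V] (G : SimpleGraph V) [DecidableRel G.Adj] {pos : V → ℕ}
    (h : MaxNbrOrder G pos) (L : V → Finset α) (hL1 : ∀ v, (L v).Nonempty)
    (hL2 : ∀ v u, G.Adj v u → G.degree u < (L v).card) :
    ∃ c : V → α, (∀ v, c v ∈ L v) ∧ PCF G c := by
  classical
  have hW : Weak G pos Finset.univ := by
    intro v _
    obtain ⟨u, hu, hu2, hmax⟩ := h.2 v
    exact ⟨u, Finset.mem_univ _, hu, hu2, fun w _ hw1 hw2 z _ hz1 hz2 => hmax w hw1 hw2 z hz1 hz2⟩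
  obtain ⟨c, hc1, hc2⟩ := exists_pon h.1 L hL1 hL2 _ Finset.univ le_rfl hW
  refine ⟨c, fun v => hc1 v (Finset.mem_univ _), fun u w huw => hc2.1 u (Finset.mem_univ _) w
    (Finset.mem_univ _) huw, ?_⟩
  rintro v ⟨w, hw⟩
  obtain ⟨u, _, hu, hu2⟩ := hc2.2 v (Finset.mem_univ _) ⟨w, Finset.mem_univ _, hw⟩
  exact ⟨u, hu, fun z hz hz2 => hu2 z (Finset.mem_univ _) hz hz2⟩

/-- dually chordal graphs, all definitions written out. The ordering `pos` is a maximum neighbourhood
ordering: every `v` has a maximum neighbour `u` (`u = v` is allowed) in the subgraph induced by the `w` with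
`pos v ≤ pos w`: the closed neighbourhood of every `w` in the closed neighbourhood of `v` is contained in the
closed neighbourhood of `u` -/
theorem dually_chordal71 {V α : Type} [Fintype V] [DecidableEq V] [DecidableEq α] (G : SimpleGraph V)
    [DecidableRel G.Adj] (L : V → Finset α) (hL1 : ∀ v, (L v).Nonempty)
    (hL2 : ∀ v u, G.Adj v u → G.degree u < (L v).card)
    (h : ∃ pos : V → ℕ, Function.Injective pos ∧ ∀ v, ∃ u, pos v ≤ pos u ∧ (u = v ∨ G.Adj v u) ∧
      ∀ w, pos v ≤ pos w → (w = v ∨ G.Adj v w) → ∀ z, pos v ≤ pos z → (z = w ∨ G.Adj w z) →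
        (z = u ∨ G.Adj u z)) :
    ∃ c : V → α, (∀ v, c v ∈ L v) ∧ (∀ u v, G.Adj u v → c u ≠ c v) ∧
      ∀ v, 0 < G.degree v → ∃ k, (Finset.filter (fun w => c w = k) (G.neighborFinset v)).card = 1 := by
  obtain ⟨pos, hpos⟩ := h
  obtain ⟨c, hc1, hc2, hc3⟩ := dual71 G (pos := pos) hpos L hL1 hL2
  refine ⟨c, hc1, hc2, fun v hv => ?_⟩
  obtain ⟨w, hw⟩ := (G.degree_pos_iff_exists_adj v).1 hv
  obtain ⟨u, hu, huniq⟩ := hc3 v ⟨w, hw⟩
  refine ⟨c u, Finset.card_eq_one.2 ⟨u, ?_⟩⟩
  ext z
  rw [Finset.mem_filter, SimpleGraph.mem_neighborFinset, Finset.mem_singleton]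
  constructor
  · rintro ⟨hz, hz2⟩
    exact huniq z hz hz2
  · rintro rfl
    exact ⟨hu, rfl⟩

end Pool.Agent.Helper71.PC71
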