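import Pool.Agent.Helper71.PC71.Bridged

/-!
# Graphs without isometric cycles of length at least four are weakly modular

The triangle condition and the quadrangle condition are proved together by induction on the distance: a
smallest counterexample and two disjoint geodesics give an isometric cycle.
-/

set_option autoImplicit false

namespace Pool.Agent.Helper71.PC71

variable {V : Type}

/-- what is used about the distance function of a connected graph -/
structure Met (G : SimpleGraph V) (d : V → V → ℕ) : Prop where
  self : ∀ x, d x x = 0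
  eq : ∀ x y, d x y = 0 → x = y
  comm : ∀ x y, d x y = d y x
  tri : ∀ x y z, d x z ≤ d x y + d y z
  adj : ∀ x y, G.Adj x y ↔ d x y = 1
  low : ∀ u x, d u x ≠ 0 → ∃ y, G.Adj x y ∧ d u y + 1 = d u x

/-- the triangle condition at distance `k` -/
def TC (G : SimpleGraph V) (d : V → V → ℕ) (k : ℕ) : Prop :=
  ∀ u v w, G.Adj v w → d u v = k → d u w = k → ∃ x, G.Adj x v ∧ G.Adj x w ∧ d u x + 1 = k

/-- the lower neighbours of a vertex at distance `k + 1` form a clique -/
def QC (G : SimpleGraph V) (d : V → V → ℕ) (k : ℕ) : Prop :=
  ∀ u v w z, G.Adj v z → G.Adj w z → v ≠ w → d u v = k → d u w = k → d u z = k + 1 → G.Adj v w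

/-- `a` is the first vertex after `u` of a geodesic from `u` to `x` -/
def In (G : SimpleGraph V) (d : V → V → ℕ) (u x a : V) : Prop := G.Adj u a ∧ d a x + 1 = d u x

/-- two geodesics from `u` to `x` and to `y` have equal or adjacent first vertices -/
def Close (G : SimpleGraph V) (d : V → V → ℕ) (u x y : V) : Prop :=
  ∃ a b, In G d u x a ∧ In G d u y b ∧ (a = b ∨ G.Adj a b)

section

variable {G : SimpleGraph V} {d : V → V → ℕ}

theorem step_le (M : Met G d) {x y : V} (u : V) (h : G.Adj x y) : d u y ≤ d u x + 1 := by
  have h1 := M.tri u x y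
  have h2 := (M.adj x y).1 h
  omega

theorem step_le' (M : Met G d) {x y : V} (u : V) (h : G.Adj x y) : d u x ≤ d u y + 1 :=
  step_le M u h.symm

theorem in_exists (M : Met G d) {u x : V} (h : d u x ≠ 0) : ∃ a, In G d u x a := by
  rw [M.comm] at h
  obtain ⟨a, h1, h2⟩ := M.low x u h
  refine ⟨a, h1, ?_⟩
  rw [M.comm a x, M.comm u x]
  exact h2

theorem in_mono (M : Met G d) {u x y a : V} (h : d u y + d y x = d u x) (ha : In G d u y a) :
    In G d u x a := by
  obtain ⟨h1, h2⟩ := ha
  refine ⟨h1, ?_⟩
  have h3 := M.tri a y x
  have h4 := M.tri u a x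
  have h5 := (M.adj u a).1 h1
  omega

theorem in_clique (M : Met G d) {u x a b : V} {m : ℕ} (hq : QC G d m) (hm : d u x = m + 1)
    (ha : In G d u x a) (hb : In G d u x b) : a = b ∨ G.Adj a b := by
  by_cases hab : a = b
  · exact Or.inl hab
  · right
    have h1 := ha.2
    have h2 := hb.2
    refine hq x a b u ha.1.symm hb.1.symm hab ?_ ?_ ?_
    · rw [M.comm]; omega
    · rw [M.comm]; omega
    · rw [M.comm]; omega

theorem close_symm {u x y : V} (h : Close G d u x y) : Close G d u y x := by
  obtain ⟨a, b, ha, hb, hab⟩ := h
  exact ⟨b, a, hb, ha, hab.imp (fun e => e.symm) (fun e => e.symm)⟩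

theorem close_mono (M : Met G d) {u x y x' y' : V} (hx : d u x' + d x' x = d u x)
    (hy : d u y' + d y' y = d u y) (h : Close G d u x' y') : Close G d u x y := by
  obtain ⟨a, b, ha, hb, hab⟩ := h
  exact ⟨a, b, in_mono M hx ha, in_mono M hy hb, hab⟩

theorem close_of_common (M : Met G d) {u x y z : V} (hz : d u z ≠ 0) (hx : d u z + d z x = d u x)
    (hy : d u z + d z y = d u y) : Close G d u x y := by
  obtain ⟨a, ha⟩ := in_exists M hz
  exact ⟨a, a, in_mono M hx ha, in_mono M hy ha, Or.inl rfl⟩

/-- geodesics which do not start in equal or adjacent vertices form a geodesic -/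
theorem close_of_lt (M : Met G d) {K : ℕ} (hT : ∀ m, m < K → TC G d m)
    (hQ : ∀ m, m + 1 < K → QC G d m) :
    ∀ (N : ℕ), N ≤ K → ∀ (u x y : V), d u x + d u y = N → d u x ≠ 0 → d u y ≠ 0 →
      d x y < d u x + d u y → Close G d u x y := by
  intro N
  induction N using Nat.strong_induction_on with
  | _ N ih =>
    intro hNK
    have key : ∀ (u x y : V), d u x + d u y = N → 2 ≤ d u x → d u y ≠ 0 →
        d x y < d u x + d u y → Close G d u x y := by
      intro u x y hN hx hy hlt
      by_contra hC
      have hlow : ∀ x', G.Adj x x' → d u x' + 1 = d u x → d x' y = d u x' + d u y := by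
        intro x' hx' hl'
        by_contra hne
        have h1 := M.tri x' u y
        have h2 := M.comm x' u
        have h3 : d x' x = 1 := (M.adj _ _).1 hx'.symm
        refine hC (close_mono M (x' := x') (y' := y) (by omega) (by rw [M.self]; omega)
          (ih (N - 1) (by omega) (by omega) u x' y (by omega) (by omega) hy (by omega)))
      obtain ⟨x1, hx1, hl1⟩ := M.low u x (by omega)
      obtain ⟨x2, hx2, hl2⟩ := M.low u x1 (by omega)
      have e1 := hlow x1 hx1 hl1
      have S : ∀ x', G.Adj x' x1 → d u x' = d u x → d x' y + 2 = d u x + d u y → False := by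
        intro x' hx' hl' hd'
        have h1 := M.tri y u x2
        have h2 := step_le' M y hx2
        have c1 := M.comm y u
        have c2 := M.comm y x1
        have c3 := M.comm y x'
        have hadj := hQ (d u x + d u y - 2) (by omega) y x' x2 x1 hx' hx2.symm
          (fun e => by rw [e] at hl'; omega) (by omega) (by omega) (by omega)
        have := step_le' M u hadj
        omega
      have h1 := step_le M y hx1
      have c1 := M.comm y x
      have c2 := M.comm y x1
      by_cases hd : d x y + 2 = d u x + d u y
      · exact S x hx1 rfl hd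
      · obtain ⟨t, ht, ht1, ht2⟩ := hT (d u x + d u y - 1) (by omega) y x x1 hx1 (by omega) (by omega)
        have h2 := step_le' M u ht
        have h3 := step_le' M u ht1
        have h4 := step_le M u ht
        have c3 := M.comm y t
        by_cases h5 : d u t + 1 = d u x
        · have := hlow t ht.symm h5
          omega
        · exact S t ht1 (by omega) (by omega)
    intro u x y hN hx hy hlt
    by_cases h2 : 2 ≤ d u x
    · exact key u x y hN h2 hy hlt
    by_cases h3 : 2 ≤ d u y
    · exact close_symm (key u y x (by omega) h3 hx (by rw [M.comm]; omega))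
    refine ⟨x, y, ⟨(M.adj _ _).2 (by omega), by rw [M.self]; omega⟩,
      ⟨(M.adj _ _).2 (by omega), by rw [M.self]; omega⟩, ?_⟩
    by_cases h4 : d x y = 0
    · exact Or.inl (M.eq _ _ h4)
    · exact Or.inr ((M.adj _ _).2 (by omega))

/-- geodesics exist -/
theorem exists_geodesic (M : Met G d) (u : V) : ∀ (k : ℕ) (x : V), d u x = k →
    ∃ p : ℕ → V, p 0 = u ∧ p k = x ∧ ∀ i j, i ≤ j → j ≤ k → d (p i) (p j) = j - i := by
  intro k
  induction k with
  | zero =>
    intro x hx
    refine ⟨fun _ => u, rfl, M.eq _ _ hx, fun i j hij hj => ?_⟩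
    rw [M.self]; omega
  | succ k ih =>
    intro x hx
    obtain ⟨y, hy, hl⟩ := M.low u x (by omega)
    obtain ⟨p, hp0, hpk, hp⟩ := ih y (by omega)
    refine ⟨fun i => if i ≤ k then p i else x, by simp [hp0], by simp, fun i j hij hj => ?_⟩
    by_cases hjk : j ≤ k
    · have hik : i ≤ k := hij.trans hjk
      simp only [hjk, hik, if_true]
      exact hp i j hij hjk
    · have hj' : j = k + 1 := by omega
      by_cases hik : i ≤ k
      · simp only [hjk, hik, if_true, if_false]
        have h1 := hp i k hik le_rfl
        have h2 := hp 0 i (Nat.zero_le _) hik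
        rw [hpk] at h1
        rw [hp0] at h2
        have h3 := M.tri (p i) y x
        have h4 := M.tri u (p i) x
        have h5 : d y x = 1 := (M.adj _ _).1 hy.symm
        omega
      · simp only [hjk, hik, if_false]
        rw [M.self]; omega

/-- no isometric cycle of length at least four -/
def NoIso (d : V → V → ℕ) : Prop :=
  ∀ n, 4 ≤ n → ∀ c : ℕ → V, ¬ ∀ i j, i ≤ j → j < n → d (c i) (c j) = min (j - i) (n - (j - i))

/-- the triangle condition at distance `k` -/
theorem tc_step (M : Met G d) (B : NoIso d) {k : ℕ} (hT : ∀ m, m < k → TC G d m)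
    (hQ : ∀ m, m < k → QC G d m) : TC G d k := by
  intro u v w hvw hv hw
  by_contra hno
  push Not at hno
  have hk2 : 2 ≤ k := by
    by_contra hk
    have hk' : k = 0 ∨ k = 1 := by omega
    rcases hk' with h0 | h1
    · rw [h0] at hv hw
      exact hvw.ne ((M.eq _ _ hv).symm.trans (M.eq _ _ hw))
    · exact hno u ((M.adj _ _).2 (by omega)) ((M.adj _ _).2 (by omega)) (by rw [M.self]; omega)
  -- geodesics to `v` and `w` do not start in equal or adjacent vertices
  have hN : ¬ Close G d u v w := by
    rintro ⟨a, b, ha, hb, hab⟩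
    -- the case of equality
    have heq : ∀ a, In G d u v a → In G d u w a → False := by
      intro a ha hb
      obtain ⟨x, hxv, hxw, hx⟩ := hT (k - 1) (by omega) a v w hvw (by have := ha.2; omega)
        (by have := hb.2; omega)
      have h1 := M.tri u a x
      have h2 := (M.adj u a).1 ha.1
      have h3 := step_le M u hxv
      exact hno x hxv hxw (by omega)
    rcases hab with rfl | hab
    · exact heq a ha hb
    · have h1 : d a w = k := by
        have h2 := M.tri a b w
        have h3 := (M.adj a b).1 hab
        have h4 := hb.2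
        have h5 := M.tri u a w
        have h6 := (M.adj u a).1 ha.1
        have h7 : d a w + 1 ≠ k := fun e => heq a ha ⟨ha.1, by omega⟩
        omega
      obtain ⟨w', hw', hl⟩ := M.low b w (by have := hb.2; omega)
      have h2 := ha.2
      have h3 := hb.2
      have h4 := M.tri u b w'
      have h5 := (M.adj u b).1 hb.1
      have h6 := step_le' M u hw'
      have h7 := M.tri a b w'
      have h8 := (M.adj a b).1 hab
      have h9 := step_le' M a hw'
      have hadj : G.Adj v w' := hQ (k - 1) (by omega) a v w' w hvw hw'.symm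
        (fun e => by rw [e] at hv; omega) (by omega) (by omega) (by omega)
      exact hno w' hadj.symm hw'.symm (by omega)
  obtain ⟨p, hp0, hpk, hp⟩ := exists_geodesic M u k v hv
  obtain ⟨q, hq0, hqk, hq⟩ := exists_geodesic M u k w hw
  have dvw := (M.adj v w).1 hvw
  -- distances on the geodesics
  have lp : ∀ i, i ≤ k → d u (p i) = i ∧ d (p i) v = k - i := fun i hi =>
    ⟨by have := hp 0 i (Nat.zero_le _) hi; rw [hp0] at this; omega,
      by have := hp i k hi le_rfl; rw [hpk] at this; exact this⟩
  have lq : ∀ i, i ≤ k → d u (q i) = i ∧ d (q i) w = k - i := fun i hi =>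
    ⟨by have := hq 0 i (Nat.zero_le _) hi; rw [hq0] at this; omega,
      by have := hq i k hi le_rfl; rw [hqk] at this; exact this⟩
  have cl := close_of_lt M (K := k) hT (fun m hm => hQ m (by omega))
  -- `d v (q j)` and `d w (p i)`
  have hvq : ∀ j, 1 ≤ j → j ≤ k → d v (q j) = k - j + 1 := by
    intro j h1 h2
    obtain ⟨l1, l2⟩ := lq j h2
    have h3 := M.tri v w (q j)
    have h4 := M.comm w (q j)
    have h5 := M.tri u (q j) v
    have h6 := M.comm v (q j)
    by_contra hne
    exact hN (close_of_common M (z := q j) (by omega) (by omega) (by omega))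
  -- the lower bound
  have hlow : ∀ i j, 1 ≤ i → i ≤ k → 1 ≤ j → j ≤ k → min (i + j) (2 * k + 1 - (i + j)) ≤ d (p i) (q j) := by
    intro i j hi1 hi2 hj1 hj2
    by_contra hlt
    obtain ⟨p1, p2⟩ := lp i hi2
    obtain ⟨q1, q2⟩ := lq j hj2
    by_cases hs : i + j ≤ k
    · exact hN (close_mono M (x' := p i) (y' := q j) (by omega) (by omega)
        (cl (i + j) hs u (p i) (q j) (by omega) (by omega) (by omega) (by omega)))
    by_cases hs2 : i + j = k + 1
    · by_cases hi : i = 1
      · -- `p 1` lies on a geodesic from `u` to `w`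
        have hjk : j = k := by omega
        rw [hjk, hqk] at hlt
        have h1 : G.Adj u (p i) := (M.adj _ _).2 (by omega)
        have h2 := M.tri u (p i) w
        have h3 : In G d u w (p i) := ⟨h1, by omega⟩
        have h4 : In G d u v (p i) := ⟨h1, by omega⟩
        exact hN ⟨p i, p i, h4, h3, Or.inl rfl⟩
      · obtain ⟨r1, r2⟩ := lp (i - 1) (by omega)
        obtain ⟨s1, s2⟩ := lp (i - 2) (by omega)
        have e1 := hp (i - 1) i (by omega) hi2
        have e2 := hp (i - 2) (i - 1) (by omega) (by omega)
        have a1 : G.Adj (p (i - 1)) (p i) := (M.adj _ _).2 (by omega)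
        have a2 : G.Adj (p (i - 2)) (p (i - 1)) := (M.adj _ _).2 (by omega)
        have e3 : d (p (i - 1)) (q j) = k := by
          have h1 := M.tri (p (i - 1)) u (q j)
          have h2 := M.comm (p (i - 1)) u
          by_contra hne
          exact hN (close_mono M (x' := p (i - 1)) (y' := q j) (by omega) (by omega)
            (cl k le_rfl u (p (i - 1)) (q j) (by omega) (by omega) (by omega) (by omega)))
        have e4 := M.tri (q j) u (p (i - 2))
        have c1 := M.comm (q j) u
        have c2 := M.comm (q j) (p (i - 1))
        have c3 := M.comm (q j) (p i)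
        have e5 := step_le M (q j) a2
        have e6 := step_le' M (q j) a1
        have hadj := hQ (k - 1) (by omega) (q j) (p i) (p (i - 2)) (p (i - 1)) a1.symm a2
          (fun e => by rw [e] at p1; omega) (by omega) (by omega) (by omega)
        have := step_le' M u hadj
        omega
    · -- the other end
      by_cases hik : i = k
      · rw [hik, hpk, hvq j hj1 hj2] at hlt
        omega
      · have e1 := hvq j hj1 hj2
        have c1 := M.comm v (p i)
        obtain ⟨a, b, ha, hb, hab⟩ := cl ((k - i) + (k - j + 1)) (by omega) v (p i) (q j) (by omega)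
          (by omega) (by omega) (by omega)
        have hb1 := hb.2
        have ha1 := ha.2
        have hwin : In G d v (q j) w := ⟨hvw, by rw [M.comm w (q j)]; omega⟩
        -- the vertex `a` is a lower neighbour of `v`
        have la : d u a + 1 = k := by
          have h1 := M.tri u (p i) a
          have h2 := M.comm a (p i)
          have h3 := step_le' M u ha.1
          omega
        have lb1 := M.tri u (q j) b
        have cb := M.comm b (q j)
        have lb2 := step_le' M u hb.1
        have hbw := in_clique M (hQ (k - j) (by omega)) (by omega) hb hwin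
        have hlb : d u b = k := by
          by_contra hne
          have hbw' : G.Adj b w := by
            rcases hbw with e | e
            · rw [e] at hne; exact absurd hw hne
            · exact e
          exact hno b hb.1.symm hbw' (by omega)
        have hab' : G.Adj a b := by
          rcases hab with e | e
          · rw [e] at la; omega
          · exact e
        rcases hbw with e | hbw
        · rw [e] at hab'
          exact hno a ha.1.symm hab' la
        · -- `b` has geodesics through `a` and through `q j`
          obtain ⟨a1, ha1'⟩ := in_exists M (u := u) (x := a) (by omega)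
          obtain ⟨b1, hb1'⟩ := in_exists M (u := u) (x := q j) (by omega)
          have dab := (M.adj a b).1 hab'
          have dav : d a v = 1 := (M.adj a v).1 ha.1.symm
          have f1 : In G d u b a1 := in_mono M (y := a) (by omega) ha1'
          have f2 : In G d u b b1 := in_mono M (y := q j) (by omega) hb1'
          have f3 : In G d u v a1 := in_mono M (y := a) (by omega) ha1'
          have f4 : In G d u w b1 := in_mono M (y := q j) (by omega) hb1'
          exact hN ⟨a1, b1, f3, f4, in_clique M (hQ (k - 1) (by omega)) (by omega) f1 f2⟩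
  -- the upper bound
  have hup : ∀ i j, 1 ≤ i → i ≤ k → 1 ≤ j → j ≤ k → d (p i) (q j) ≤ min (i + j) (2 * k + 1 - (i + j)) := by
    intro i j hi1 hi2 hj1 hj2
    obtain ⟨p1, p2⟩ := lp i hi2
    obtain ⟨q1, q2⟩ := lq j hj2
    have h1 := M.tri (p i) u (q j)
    have h2 := M.comm (p i) u
    have h3 := M.tri (p i) v (q j)
    have h4 := hvq j hj1 hj2
    omega
  -- the isometric cycle
  refine B (2 * k + 1) (by omega) (fun t => if t ≤ k then p t else q (2 * k + 1 - t)) ?_
  intro i j hij hj
  by_cases hjk : j ≤ k
  · have hik : i ≤ k := hij.trans hjk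
    simp only [hik, hjk, if_true]
    rw [hp i j hij hjk]
    omega
  · by_cases hik : i ≤ k
    · simp only [hik, hjk, if_true, if_false]
      by_cases hi0 : i = 0
      · rw [hi0, hp0, (lq (2 * k + 1 - j) (by omega)).1]
        omega
      · have h1 := hlow i (2 * k + 1 - j) (by omega) hik (by omega) (by omega)
        have h2 := hup i (2 * k + 1 - j) (by omega) hik (by omega) (by omega)
        omega
    · simp only [hik, hjk, if_false]
      rw [M.comm, hq (2 * k + 1 - j) (2 * k + 1 - i) (by omega) (by omega)]
      omega

/-- the lower neighbours at distance `k` form a clique -/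
theorem qc_step (M : Met G d) (B : NoIso d)
    (c4 : ∀ a b c e, G.Adj a b → G.Adj b c → G.Adj c e → G.Adj e a → a ≠ c → b ≠ e →
      (G.Adj a c ∨ G.Adj b e))
    (c5 : ∀ a b c e f, G.Adj a b → G.Adj b c → G.Adj c e → G.Adj e f → G.Adj f a →
      a ≠ c → a ≠ e → b ≠ e → b ≠ f → c ≠ f →
      (G.Adj a c ∨ G.Adj a e ∨ G.Adj b e ∨ G.Adj b f ∨ G.Adj c f))
    {k : ℕ} (hT : ∀ m, m ≤ k → TC G d m) (hQ : ∀ m, m < k → QC G d m) : QC G d k := by
  intro u v w z hvz hwz hne hv hw hz
  by_contra hnadj
  have hk1 : 1 ≤ k := by
    by_contra hk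
    have h0 : k = 0 := by omega
    rw [h0] at hv hw
    exact hne ((M.eq _ _ hv).symm.trans (M.eq _ _ hw))
  -- non-adjacent lower neighbours of `z` have no common lower neighbour
  have NC : ∀ v w, G.Adj v z → G.Adj w z → v ≠ w → ¬ G.Adj v w → d u v = k → d u w = k →
      ∀ s, G.Adj s v → G.Adj s w → d u s + 1 ≠ k := by
    intro v w hvz hwz hne hnadj hv hw s hsv hsw hs
    rcases c4 s v z w hsv hvz hwz.symm hsw.symm (fun e => by rw [e] at hs; omega) hne with h | h
    · have := step_le M u h; omega
    · exact hnadj h
  -- no vertex of the same level is adjacent to both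
  have ST : ∀ v w, G.Adj v z → G.Adj w z → v ≠ w → ¬ G.Adj v w → d u v = k → d u w = k →
      ∀ b, G.Adj b v → G.Adj b w → d u b ≠ k := by
    intro v w hvz hwz hne hnadj hv hw b hbv hbw hb
    obtain ⟨a1, h1, h2, h3⟩ := hT k le_rfl u v b hbv.symm hv hb
    obtain ⟨b1, h4, h5, h6⟩ := hT k le_rfl u b w hbw hb hw
    have nc := NC v w hvz hwz hne hnadj hv hw
    by_cases hab : a1 = b1
    · subst hab
      exact nc a1 h1 h5 h3
    · have hadj : G.Adj a1 b1 := hQ (k - 1) (by omega) u a1 b1 b h2 h4 hab (by omega) (by omega)
        (by omega)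
      rcases c5 v a1 b1 w z h1.symm hadj h5 hwz hvz.symm (fun e => by rw [← e] at h6; omega) hne
        (fun e => by rw [e] at h3; omega) (fun e => by rw [e] at h3; omega)
        (fun e => by rw [e] at h6; omega) with h | h | h | h | h
      · exact nc b1 h.symm h5 h6
      · exact hnadj h
      · exact nc a1 h1 h h3
      · have := step_le M u h; omega
      · have := step_le M u h; omega
  -- `v` and `w` are not joined by a path of length at most three among the lower neighbours
  have P3 : ∀ a b, G.Adj b z → d u a = k → d u b = k → (a = v ∨ G.Adj a v) → (b = w ∨ G.Adj b w) →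
      (a = b ∨ G.Adj a b) → False := by
    intro a b hbz ha hb hav hbw hab
    have st := ST v w hvz hwz hne hnadj hv hw
    rcases hav with rfl | hav
    · rcases hab with rfl | hab
      · rcases hbw with e | hbw
        · exact hne e
        · exact hnadj hbw
      · rcases hbw with rfl | hbw
        · exact hnadj hab
        · exact st b hab.symm hbw hb
    · rcases hab with rfl | hab
      · rcases hbw with rfl | hbw
        · exact hnadj hav.symm
        · exact st a hav hbw ha
      · rcases hbw with rfl | hbw
        · exact st a hav hab ha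
        · by_cases hvb : v = b
          · subst hvb; exact hnadj hbw
          by_cases hvb' : G.Adj v b
          · exact st b hvb'.symm hbw hb
          · exact ST v b hvz hbz hvb hvb' hv hb a hav hab ha
  have dvz := (M.adj v z).1 hvz
  have dwz := (M.adj w z).1 hwz
  -- geodesics to `v` and `w` do not start in equal or adjacent vertices
  have hN : ¬ Close G d u v w := by
    rintro ⟨a, b, ha, hb, hab⟩
    have heq : ∀ a, In G d u v a → In G d u w a → False := by
      intro a ha hb
      have h1 := ha.2
      have h2 := hb.2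
      have h3 := M.tri a v z
      have h4 := M.tri u a z
      have h5 := (M.adj u a).1 ha.1
      exact hnadj (hQ (k - 1) (by omega) a v w z hvz hwz hne (by omega) (by omega) (by omega))
    rcases hab with rfl | hab
    · exact heq a ha hb
    · have h1 := ha.2
      have h2 := hb.2
      have h3 := M.tri a v z
      have h4 := M.tri u a z
      have h5 := (M.adj u a).1 ha.1
      have h6 := M.tri a b w
      have h7 := (M.adj a b).1 hab
      have h8 := M.tri u a w
      have h9 : d a w + 1 ≠ k := fun e => heq a ha ⟨ha.1, by omega⟩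
      obtain ⟨t, ht1, ht2, ht3⟩ := hT k le_rfl a z w hwz.symm (by omega) (by omega)
      have e1 := M.tri u a t
      have e2 := step_le M u ht1
      have lt : d u t = k := by omega
      have hvt : t = v ∨ G.Adj t v := by
        by_cases hne' : t = v
        · exact Or.inl hne'
        · exact Or.inr (hQ (k - 1) (by omega) a t v z ht1 hvz hne' (by omega) (by omega) (by omega))
      exact P3 t t ht1 lt lt hvt (Or.inr ht2) (Or.inl rfl)
  obtain ⟨p, hp0, hpk, hp⟩ := exists_geodesic M u k v hv
  obtain ⟨q, hq0, hqk, hq⟩ := exists_geodesic M u k w hw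
  have lp : ∀ i, i ≤ k → d u (p i) = i ∧ d (p i) v = k - i := fun i hi =>
    ⟨by have := hp 0 i (Nat.zero_le _) hi; rw [hp0] at this; omega,
      by have := hp i k hi le_rfl; rw [hpk] at this; exact this⟩
  have lq : ∀ i, i ≤ k → d u (q i) = i ∧ d (q i) w = k - i := fun i hi =>
    ⟨by have := hq 0 i (Nat.zero_le _) hi; rw [hq0] at this; omega,
      by have := hq i k hi le_rfl; rw [hqk] at this; exact this⟩
  have cl := close_of_lt M (K := k + 1) (fun m hm => hT m (by omega)) (fun m hm => hQ m (by omega))
  have zp : ∀ i, i ≤ k → d z (p i) = k - i + 1 := by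
    intro i hi
    obtain ⟨l1, l2⟩ := lp i hi
    have h1 := M.tri z v (p i)
    have h2 := M.comm z v
    have h3 := M.comm v (p i)
    have h4 := M.tri u (p i) z
    have h5 := M.comm z (p i)
    omega
  have zq : ∀ i, i ≤ k → d z (q i) = k - i + 1 := by
    intro i hi
    obtain ⟨l1, l2⟩ := lq i hi
    have h1 := M.tri z w (q i)
    have h2 := M.comm z w
    have h3 := M.comm w (q i)
    have h4 := M.tri u (q i) z
    have h5 := M.comm z (q i)
    omega
  have hlow : ∀ i j, 1 ≤ i → i ≤ k → 1 ≤ j → j ≤ k → min (i + j) (2 * k + 2 - (i + j)) ≤ d (p i) (q j) := by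
    intro i j hi1 hi2 hj1 hj2
    by_contra hlt
    obtain ⟨p1, p2⟩ := lp i hi2
    obtain ⟨q1, q2⟩ := lq j hj2
    by_cases hs : i + j ≤ k + 1
    · exact hN (close_mono M (x' := p i) (y' := q j) (by omega) (by omega)
        (cl (i + j) hs u (p i) (q j) (by omega) (by omega) (by omega) (by omega)))
    · have e1 := zp i hi2
      have e2 := zq j hj2
      obtain ⟨a, b, ha, hb, hab⟩ := cl ((k - i + 1) + (k - j + 1)) (by omega) z (p i) (q j) (by omega)
        (by omega) (by omega) (by omega)
      have ha2 := ha.2
      have hb2 := hb.2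
      have hvin : In G d z (p i) v := ⟨hvz.symm, by rw [M.comm v (p i)]; omega⟩
      have hwin : In G d z (q j) w := ⟨hwz.symm, by rw [M.comm w (q j)]; omega⟩
      have la : d u a = k := by
        have h1 := M.tri u (p i) a
        have h2 := M.comm a (p i)
        have h3 := step_le M u ha.1.symm
        omega
      have lb : d u b = k := by
        have h1 := M.tri u (q j) b
        have h2 := M.comm b (q j)
        have h3 := step_le M u hb.1.symm
        omega
      exact P3 a b hb.1.symm la lb (in_clique M (hQ (k - i) (by omega)) (by omega) ha hvin)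
        (in_clique M (hQ (k - j) (by omega)) (by omega) hb hwin) hab
  have hup : ∀ i j, 1 ≤ i → i ≤ k → 1 ≤ j → j ≤ k → d (p i) (q j) ≤ min (i + j) (2 * k + 2 - (i + j)) := by
    intro i j hi1 hi2 hj1 hj2
    obtain ⟨p1, p2⟩ := lp i hi2
    obtain ⟨q1, q2⟩ := lq j hj2
    have h1 := M.tri (p i) u (q j)
    have h2 := M.comm (p i) u
    have h3 := M.tri (p i) z (q j)
    have h4 := zp i hi2
    have h5 := zq j hj2
    have h6 := M.comm (p i) z
    omega
  -- the isometric cycle
  refine B (2 * k + 2) (by omega)
    (fun t => if t ≤ k then p t else if t = k + 1 then z else q (2 * k + 2 - t)) ?_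
  intro i j hij hj
  by_cases hjk : j ≤ k
  · have hik : i ≤ k := hij.trans hjk
    simp only [hik, hjk, if_true]
    rw [hp i j hij hjk]
    omega
  · by_cases hjz : j = k + 1
    · by_cases hik : i ≤ k
      · subst hjz
        simp only [hik, hjk, if_true, if_false]
        rw [M.comm, zp i hik]
        omega
      · have hiz : i = k + 1 := by omega
        subst hjz
        subst hiz
        simp only [hjk, if_true, if_false]
        rw [M.self]
        omega
    · by_cases hik : i ≤ k
      · simp only [hik, hjk, hjz, if_true, if_false]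
        by_cases hi0 : i = 0
        · rw [hi0, hp0, (lq (2 * k + 2 - j) (by omega)).1]
          omega
        · have h1 := hlow i (2 * k + 2 - j) (by omega) hik (by omega) (by omega)
          have h2 := hup i (2 * k + 2 - j) (by omega) hik (by omega) (by omega)
          omega
      · by_cases hiz : i = k + 1
        · simp only [hik, hjk, hjz, hiz, if_true, if_false]
          have h3 : ¬ (k + 1 ≤ k) := by omega
          simp only [h3, if_false]
          rw [zq (2 * k + 2 - j) (by omega)]
          omega
        · simp only [hik, hjk, hjz, hiz, if_false]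
          rw [M.comm, hq (2 * k + 2 - j) (2 * k + 2 - i) (by omega) (by omega)]
          omega

/-- a graph without isometric cycles of length at least four has no induced four-cycle -/
theorem c4_of_noIso (M : Met G d) (B : NoIso d) : ∀ a b c e, G.Adj a b → G.Adj b c → G.Adj c e →
    G.Adj e a → a ≠ c → b ≠ e → (G.Adj a c ∨ G.Adj b e) := by
  intro x0 x1 x2 x3 h1 h2 h3 h4 h5 h6
  by_contra hcon
  push Not at hcon
  obtain ⟨n1, n2⟩ := hcon
  have two : ∀ x y z, G.Adj x y → G.Adj y z → x ≠ z → ¬ G.Adj x z → d x z = 2 := by
    intro x y z hxy hyz hne hn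
    have e1 := M.tri x y z
    have e2 := (M.adj x y).1 hxy
    have e3 := (M.adj y z).1 hyz
    have e4 : d x z ≠ 0 := fun e => hne (M.eq _ _ e)
    have e5 : d x z ≠ 1 := fun e => hn ((M.adj _ _).2 e)
    omega
  have a1 := (M.adj _ _).1 h1
  have a2 := (M.adj _ _).1 h2
  have a3 := (M.adj _ _).1 h3
  have a4 := (M.adj _ _).1 h4
  have b1 := two x0 x1 x2 h1 h2 h5 n1
  have b2 := two x1 x2 x3 h2 h3 h6 n2
  have c1 := M.comm x3 x0
  refine B 4 le_rfl (fun t => if t = 0 then x0 else if t = 1 then x1 else if t = 2 then x2 else x3) ?_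
  intro i j hij hj
  interval_cases j <;> interval_cases i <;> simp [M.self] <;> omega

/-- a graph without isometric cycles of length at least four has no induced five-cycle -/
theorem c5_of_noIso (M : Met G d) (B : NoIso d) : ∀ a b c e f, G.Adj a b → G.Adj b c → G.Adj c e →
    G.Adj e f → G.Adj f a → a ≠ c → a ≠ e → b ≠ e → b ≠ f → c ≠ f →
    (G.Adj a c ∨ G.Adj a e ∨ G.Adj b e ∨ G.Adj b f ∨ G.Adj c f) := by
  intro x0 x1 x2 x3 x4 h1 h2 h3 h4 h5 e1 e2 e3 e4 e5
  by_contra hcon
  push Not at hcon
  obtain ⟨n1, n2, n3, n4, n5⟩ := hcon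
  have two : ∀ x y z, G.Adj x y → G.Adj y z → x ≠ z → ¬ G.Adj x z → d x z = 2 := by
    intro x y z hxy hyz hne hn
    have e1 := M.tri x y z
    have e2 := (M.adj x y).1 hxy
    have e3 := (M.adj y z).1 hyz
    have e4 : d x z ≠ 0 := fun e => hne (M.eq _ _ e)
    have e5 : d x z ≠ 1 := fun e => hn ((M.adj _ _).2 e)
    omega
  have a1 := (M.adj _ _).1 h1
  have a2 := (M.adj _ _).1 h2
  have a3 := (M.adj _ _).1 h3
  have a4 := (M.adj _ _).1 h4
  have a5 := (M.adj _ _).1 h5
  have b1 := two x0 x1 x2 h1 h2 e1 n1
  have b2 := two x1 x2 x3 h2 h3 e3 n3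
  have b3 := two x2 x3 x4 h3 h4 e5 n5
  have b4 := two x0 x4 x3 h5.symm h4.symm e2 n2
  have b5 := two x1 x0 x4 h1.symm h5.symm e4 n4
  have c1 := M.comm x4 x0
  refine B 5 (by norm_num) (fun t => if t = 0 then x0 else if t = 1 then x1 else if t = 2 then x2
    else if t = 3 then x3 else x4) ?_
  intro i j hij hj
  interval_cases j <;> interval_cases i <;> simp [M.self] <;> omega

/-- both conditions at all distances -/
theorem tc_qc (M : Met G d) (B : NoIso d) : ∀ k, (∀ m, m ≤ k → TC G d m) ∧ ∀ m, m ≤ k → QC G d m := by
  have c4 := c4_of_noIso M B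
  have c5 := c5_of_noIso M B
  intro k
  induction k with
  | zero =>
    have t0 : TC G d 0 := tc_step M B (fun m hm => absurd hm (by omega)) (fun m hm => absurd hm (by omega))
    have q0 : QC G d 0 := qc_step M B c4 c5
      (fun m hm => by have : m = 0 := by omega
                      subst this; exact t0) (fun m hm => absurd hm (by omega))
    exact ⟨fun m hm => by have : m = 0 := by omega
                          subst this; exact t0,
      fun m hm => by have : m = 0 := by omega
                     subst this; exact q0⟩
  | succ k ih =>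
    obtain ⟨i1, i2⟩ := ih
    have t1 : TC G d (k + 1) := tc_step M B (fun m hm => i1 m (by omega)) (fun m hm => i2 m (by omega))
    have t2 : ∀ m, m ≤ k + 1 → TC G d m := by
      intro m hm
      by_cases h : m ≤ k
      · exact i1 m h
      · have : m = k + 1 := by omega
        subst this; exact t1
    have q1 : QC G d (k + 1) := qc_step M B c4 c5 t2 (fun m hm => i2 m (by omega))
    refine ⟨t2, fun m hm => ?_⟩
    by_cases h : m ≤ k
    · exact i2 m h
    · have : m = k + 1 := by omega
      subst this; exact q1

end

/-- the distance function of a connected graph -/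
theorem met_dist (G : SimpleGraph V) (hG : G.Connected) : Met G G.dist := by
  refine ⟨fun x => SimpleGraph.dist_self, fun x y h => (hG.dist_eq_zero_iff).1 h,
    fun x y => SimpleGraph.dist_comm, fun x y z => hG.dist_triangle,
    fun x y => (SimpleGraph.dist_eq_one_iff_adj).symm, ?_⟩
  intro r x hx
  obtain ⟨p, hp⟩ := hG.exists_walk_length_eq_dist x r
  cases p with
  | nil => rw [SimpleGraph.dist_self] at hx; exact absurd rfl hx
  | cons hxy q =>
    rename_i y
    refine ⟨y, hxy, ?_⟩
    rw [SimpleGraph.Walk.length_cons] at hp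
    have h1 := G.dist_le q
    have h2 := hG.dist_triangle (u := r) (v := y) (w := x)
    have h3 : G.dist y x = 1 := SimpleGraph.dist_eq_one_iff_adj.2 hxy.symm
    rw [G.dist_comm (u := y)] at h1
    rw [G.dist_comm (u := x)] at hp
    omega

/-- **Bridged graphs** (connected, no isometric cycle of length at least four): local lists -/
theorem bridged_iso71 {V α : Type} [Fintype V] [DecidableEq V] [DecidableEq α] (G : SimpleGraph V)
    [DecidableRel G.Adj] (L : V → Finset α) (hL1 : ∀ v, (L v).Nonempty)
    (hL2 : ∀ v u, G.Adj v u → G.degree u < (L v).card) (hG : G.Connected)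
    (hiso : ∀ n, 4 ≤ n → ∀ c : ℕ → V,
      ¬ ∀ i j, i ≤ j → j < n → G.dist (c i) (c j) = min (j - i) (n - (j - i))) :
    ∃ c : V → α, (∀ v, c v ∈ L v) ∧ (∀ u v, G.Adj u v → c u ≠ c v) ∧
      ∀ v, 0 < G.degree v → ∃ k, (Finset.filter (fun w => c w = k) (G.neighborFinset v)).card = 1 := by
  have M := met_dist G hG
  obtain ⟨r⟩ := hG.nonempty
  have h := fun k => tc_qc M hiso k
  refine bridged71 G L hL1 hL2 hG r (fun v w hvw hl => ?_) (fun v w z hvz hwz hne hn hl hz => ?_)
    (c4_of_noIso M hiso) (c5_of_noIso M hiso)
  · exact (h (G.dist r v)).1 _ le_rfl r v w hvw rfl hl.symm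
  · exact absurd ((h (G.dist r v)).2 _ le_rfl r v w z hvz hwz hne rfl hl.symm hz) hn

end Pool.Agent.Helper71.PC71
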